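import Mathlib

namespace Pool.Agent.Lib.MP_d2e4ca_al

/-- A group in which the centralizer of every non-trivial element is abelian. -/
def IsCA (G : Type) [Group G] : Prop :=
  ∀ x : G, x ≠ 1 → ∀ a ∈ Subgroup.centralizer {x}, ∀ b ∈ Subgroup.centralizer {x}, a * b = b * a

/-- All quotients of `G` by open normal subgroups are soluble. -/
def IsProsoluble (G : Type) [Group G] [TopologicalSpace G] : Prop :=
  ∀ (N : Subgroup G) [N.Normal], IsOpen (N : Set G) → Group.IsSolvable (G ⧸ N)

end Pool.Agent.Lib.MP_d2e4ca_al
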