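import Pool.Agent.Lib.MP_d2e4ca_al.Defs

namespace Pool.Agent.Lib.MP_d2e4ca_al

open Matrix PowerSeries
open scoped MatrixGroups PowerSeries.WithPiTopology

/-! ### Commutative transitivity of `SL₂` over a domain of characteristic two -/

theorem isCA_SL2 (R : Type) [CommRing R] [IsDomain R] [CharP R 2] :
    IsCA (Matrix.SpecialLinearGroup (Fin 2) R) := by
  intro x hx a ha b hb
  rw [Subgroup.mem_centralizer_singleton_iff] at ha hb
  have a00 : (a * x) 0 0 = (x * a) 0 0 := by rw [ha]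
  have a01 : (a * x) 0 1 = (x * a) 0 1 := by rw [ha]
  have a10 : (a * x) 1 0 = (x * a) 1 0 := by rw [ha]
  have b00 : (b * x) 0 0 = (x * b) 0 0 := by rw [hb]
  have b01 : (b * x) 0 1 = (x * b) 0 1 := by rw [hb]
  have b10 : (b * x) 1 0 = (x * b) 1 0 := by rw [hb]
  simp only [Matrix.SpecialLinearGroup.coe_mul, Matrix.mul_apply, Fin.sum_univ_two]
    at a00 a01 a10 b00 b01 b10
  have hdet : x 0 0 * x 1 1 - x 0 1 * x 1 0 = 1 := by
    have := x.det_coe
    rwa [Matrix.det_fin_two] at this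
  have hne : x 0 1 ≠ 0 ∨ x 1 0 ≠ 0 ∨ x 0 0 - x 1 1 ≠ 0 := by
    by_contra hcon
    push Not at hcon
    obtain ⟨h1, h2, h3⟩ := hcon
    apply hx
    have h4 : x 0 0 = x 1 1 := sub_eq_zero.1 h3
    rw [h1, h2, ← h4] at hdet
    have h2R : (2 : R) = 0 := CharTwo.two_eq_zero
    have h5 : (x 0 0 - 1) * (x 0 0 - 1) = 0 := by
      linear_combination hdet - (x 0 0 - 1) * h2R
    have h6 : x 0 0 = 1 := sub_eq_zero.1 (mul_self_eq_zero.1 h5)
    have h7 : x 1 1 = 1 := by rw [← h4, h6]
    ext i j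
    fin_cases i <;> fin_cases j <;> simp [h1, h2, h6, h7]
  -- the cross products vanish
  have key : a 0 1 * b 1 0 = b 0 1 * a 1 0 ∧
      a 0 1 * (b 0 0 - b 1 1) = b 0 1 * (a 0 0 - a 1 1) ∧
      a 1 0 * (b 0 0 - b 1 1) = b 1 0 * (a 0 0 - a 1 1) := by
    have e1 : a 0 1 * x 1 0 = x 0 1 * a 1 0 := by linear_combination a00
    have e2 : a 0 1 * (x 0 0 - x 1 1) = x 0 1 * (a 0 0 - a 1 1) := by linear_combination -a01
    have e3 : a 1 0 * (x 0 0 - x 1 1) = x 1 0 * (a 0 0 - a 1 1) := by linear_combination a10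
    have f1 : b 0 1 * x 1 0 = x 0 1 * b 1 0 := by linear_combination b00
    have f2 : b 0 1 * (x 0 0 - x 1 1) = x 0 1 * (b 0 0 - b 1 1) := by linear_combination -b01
    have f3 : b 1 0 * (x 0 0 - x 1 1) = x 1 0 * (b 0 0 - b 1 1) := by linear_combination b10
    rcases hne with h | h | h
    · have k1 : a 0 1 * b 1 0 = b 0 1 * a 1 0 := mul_left_cancel₀ h (by
        linear_combination b 0 1 * e1 - a 0 1 * f1)
      have k2 : a 0 1 * (b 0 0 - b 1 1) = b 0 1 * (a 0 0 - a 1 1) := mul_left_cancel₀ h (by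
        linear_combination b 0 1 * e2 - a 0 1 * f2)
      refine ⟨k1, k2, mul_left_cancel₀ h ?_⟩
      linear_combination -(b 0 0 - b 1 1) * e1 + (a 0 0 - a 1 1) * f1 + x 1 0 * k2
    · have k1 : a 0 1 * b 1 0 = b 0 1 * a 1 0 := mul_left_cancel₀ h (by
        linear_combination b 1 0 * e1 - a 1 0 * f1)
      have k3 : a 1 0 * (b 0 0 - b 1 1) = b 1 0 * (a 0 0 - a 1 1) := mul_left_cancel₀ h (by
        linear_combination b 1 0 * e3 - a 1 0 * f3)
      refine ⟨k1, mul_left_cancel₀ h ?_, k3⟩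
      linear_combination (b 0 0 - b 1 1) * e1 - (a 0 0 - a 1 1) * f1 + x 0 1 * k3
    · have k2 : a 0 1 * (b 0 0 - b 1 1) = b 0 1 * (a 0 0 - a 1 1) := mul_left_cancel₀ h (by
        linear_combination (b 0 0 - b 1 1) * e2 - (a 0 0 - a 1 1) * f2)
      have k3 : a 1 0 * (b 0 0 - b 1 1) = b 1 0 * (a 0 0 - a 1 1) := mul_left_cancel₀ h (by
        linear_combination (b 0 0 - b 1 1) * e3 - (a 0 0 - a 1 1) * f3)
      refine ⟨mul_left_cancel₀ h ?_, k2, k3⟩
      linear_combination b 1 0 * e2 - a 1 0 * f2 - x 0 1 * k3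
  obtain ⟨k1, k2, k3⟩ := key
  ext i j
  simp only [Matrix.SpecialLinearGroup.coe_mul, Matrix.mul_apply, Fin.sum_univ_two]
  fin_cases i <;> fin_cases j
  · change a 0 0 * b 0 0 + a 0 1 * b 1 0 = b 0 0 * a 0 0 + b 0 1 * a 1 0
    linear_combination k1
  · change a 0 0 * b 0 1 + a 0 1 * b 1 1 = b 0 0 * a 0 1 + b 0 1 * a 1 1
    linear_combination -k2
  · change a 1 0 * b 0 0 + a 1 1 * b 1 0 = b 1 0 * a 0 0 + b 1 1 * a 1 0
    linear_combination k3
  · change a 1 0 * b 0 1 + a 1 1 * b 1 1 = b 1 0 * a 0 1 + b 1 1 * a 1 1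
    linear_combination -k1

/-! ### The topological group -/

section
variable (F : Type) [Field F] [Finite F] [TopologicalSpace F] [DiscreteTopology F]

instance compactPS : CompactSpace F⟦X⟧ := inferInstanceAs (CompactSpace ((Unit →₀ ℕ) → F))

instance tdPS : TotallyDisconnectedSpace F⟦X⟧ :=
  inferInstanceAs (TotallyDisconnectedSpace ((Unit →₀ ℕ) → F))

instance compactMat : CompactSpace (Matrix (Fin 2) (Fin 2) F⟦X⟧) :=
  inferInstanceAs (CompactSpace (Fin 2 → Fin 2 → F⟦X⟧))

instance tdMat : TotallyDisconnectedSpace (Matrix (Fin 2) (Fin 2) F⟦X⟧) :=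
  inferInstanceAs (TotallyDisconnectedSpace (Fin 2 → Fin 2 → F⟦X⟧))

instance compactSL : CompactSpace (Matrix.SpecialLinearGroup (Fin 2) F⟦X⟧) :=
  (Matrix.SpecialLinearGroup.isClosedEmbedding_val (n := Fin 2) (R := F⟦X⟧)).compactSpace

instance tdSL : TotallyDisconnectedSpace (Matrix.SpecialLinearGroup (Fin 2) F⟦X⟧) :=
  inferInstanceAs (TotallyDisconnectedSpace (Subtype _))

/-- Reduction modulo `X` followed by the projection to `PSL₂`. -/
noncomputable def red : Matrix.SpecialLinearGroup (Fin 2) F⟦X⟧ →*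
    Matrix.ProjectiveSpecialLinearGroup (Fin 2) F :=
  (QuotientGroup.mk' (Subgroup.center (Matrix.SpecialLinearGroup (Fin 2) F))).comp
    (Matrix.SpecialLinearGroup.map (PowerSeries.constantCoeff (R := F)))

omit [Finite F] [TopologicalSpace F] [DiscreteTopology F] in
theorem map_surj : Function.Surjective
    (Matrix.SpecialLinearGroup.map (n := Fin 2) (PowerSeries.constantCoeff (R := F))) := by
  intro g
  refine ⟨Matrix.SpecialLinearGroup.map (PowerSeries.C (R := F)) g, ?_⟩
  ext i j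
  simp

omit [Finite F] [TopologicalSpace F] [DiscreteTopology F] in
theorem red_surj : Function.Surjective (red F) :=
  (QuotientGroup.mk'_surjective _).comp (map_surj F)

omit [Finite F] in
theorem isOpen_ker_map : IsOpen ((Matrix.SpecialLinearGroup.map (n := Fin 2)
    (PowerSeries.constantCoeff (R := F))).ker : Set (Matrix.SpecialLinearGroup (Fin 2) F⟦X⟧)) := by
  have hc : Continuous (Matrix.SpecialLinearGroup.map (n := Fin 2)
      (PowerSeries.constantCoeff (R := F))) :=
    (PowerSeries.WithPiTopology.continuous_constantCoeff F).specialLinearGroup_map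
  exact (isOpen_discrete ({1} : Set (Matrix.SpecialLinearGroup (Fin 2) F))).preimage hc

omit [Finite F] in
theorem isOpen_ker_red : IsOpen ((red F).ker : Set (Matrix.SpecialLinearGroup (Fin 2) F⟦X⟧)) := by
  refine Subgroup.isOpen_mono (H₁ := (Matrix.SpecialLinearGroup.map (n := Fin 2)
    (PowerSeries.constantCoeff (R := F))).ker) ?_ (isOpen_ker_map F)
  intro g hg
  rw [MonoidHom.mem_ker] at hg ⊢
  rw [red, MonoidHom.comp_apply, hg, map_one]

end

theorem infinite_SL (F : Type) [Field F] :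
    Infinite (Matrix.SpecialLinearGroup (Fin 2) F⟦X⟧) := by
  refine Infinite.of_injective (fun n : ℕ => (⟨!![1, PowerSeries.X ^ n; 0, 1], by
    simp [Matrix.det_fin_two]⟩ : Matrix.SpecialLinearGroup (Fin 2) F⟦X⟧)) ?_
  intro a b h
  have h1 := congrArg (fun g : Matrix.SpecialLinearGroup (Fin 2) F⟦X⟧ => g 0 1) h
  have h2 : (PowerSeries.X ^ a : F⟦X⟧) = PowerSeries.X ^ b := by simpa using h1
  by_contra hne
  have h3 := congrArg (PowerSeries.coeff a) h2
  rw [PowerSeries.coeff_X_pow, PowerSeries.coeff_X_pow, if_pos rfl, if_neg hne] at h3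
  exact one_ne_zero h3

theorem not_solvable_of_surj {G H : Type} [Group G] [Group H] (φ : G →* H)
    (hφ : Function.Surjective φ) [IsSimpleGroup H] (hH : ¬ ∀ a b : H, a * b = b * a) :
    ¬ Group.IsSolvable (G ⧸ φ.ker) := by
  intro h
  have e : G ⧸ φ.ker ≃* H := QuotientGroup.quotientKerEquivOfSurjective φ hφ
  have hs : Group.IsSolvable H := Group.isSolvable_of_surjective (f := e.toMonoidHom) e.surjective
  exact hH (IsSimpleGroup.comm_iff_isSolvable.2 hs)

theorem psl_not_comm (F : Type) [Field F] (hF : ∃ a : F, a ≠ 0 ∧ a ^ 2 ≠ 1) :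
    ¬ ∀ a b : Matrix.ProjectiveSpecialLinearGroup (Fin 2) F, a * b = b * a := by
  intro h
  have h1 : commutator (Matrix.ProjectiveSpecialLinearGroup (Fin 2) F) = ⊥ := by
    rw [commutator_eq_bot_iff_center_eq_top, Subgroup.eq_top_iff']
    intro a
    rw [Subgroup.mem_center_iff]
    exact fun b => h b a
  rw [SL2Simple.PSL_commutator_eq_top hF] at h1
  have := SL2Simple.PSL_nontrivial (ι := Fin 2) (F := F)
  exact top_ne_bot h1

theorem main (m : ℕ) (hm : 2 ≤ m) :
    ∃ G : ProfiniteGrp.{0}, Infinite G ∧ IsCA G ∧ ¬ IsProsoluble G ∧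
      ∃ φ : G →* Matrix.ProjectiveSpecialLinearGroup (Fin 2) (GaloisField 2 m),
        Function.Surjective φ ∧ IsOpen (φ.ker : Set G) := by
  have hcard : Nat.card (GaloisField 2 m) = 2 ^ m := GaloisField.card 2 m (by omega)
  have hfin : Finite (GaloisField 2 m) := Nat.finite_of_card_ne_zero (by rw [hcard]; positivity)
  have h4 : 4 ≤ Nat.card (GaloisField 2 m) := by
    rw [hcard]
    calc 4 = 2 ^ 2 := rfl
      _ ≤ 2 ^ m := Nat.pow_le_pow_right (by norm_num) hm
  let _ : TopologicalSpace (GaloisField 2 m) := ⊥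
  have : DiscreteTopology (GaloisField 2 m) := ⟨rfl⟩
  have : CharP (GaloisField 2 m)⟦X⟧ 2 :=
    charP_of_injective_ringHom (PowerSeries.C_injective (R := GaloisField 2 m)) 2
  have hsimple : IsSimpleGroup (Matrix.ProjectiveSpecialLinearGroup (Fin 2) (GaloisField 2 m)) :=
    Matrix.ProjectiveSpecialLinearGroup.rank_two_simple h4
  have hF : ∃ a : GaloisField 2 m, a ≠ 0 ∧ a ^ 2 ≠ 1 := by
    by_contra hcon
    push Not at hcon
    classical
    have hinj : Function.Injective (fun a : GaloisField 2 m => decide (a = 0)) := by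
      have h1 : ∀ a : GaloisField 2 m, a ≠ 0 → a = 1 := by
        intro a ha
        have h2 := hcon a ha
        have h3 : (2 : GaloisField 2 m) = 0 := CharTwo.two_eq_zero
        have h5 : (a - 1) * (a - 1) = 0 := by
          linear_combination h2 - (a - 1) * h3
        exact sub_eq_zero.1 (mul_self_eq_zero.1 h5)
      intro a b hab
      by_cases ha : a = 0
      · by_cases hb : b = 0
        · rw [ha, hb]
        · simp [ha, hb] at hab
      · by_cases hb : b = 0
        · simp [ha, hb] at hab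
        · rw [h1 a ha, h1 b hb]
    have h6 := Nat.card_le_card_of_injective _ hinj
    rw [Nat.card_eq_fintype_card (α := Bool), Fintype.card_bool] at h6
    omega
  refine ⟨ProfiniteGrp.of (Matrix.SpecialLinearGroup (Fin 2) (GaloisField 2 m)⟦X⟧),
    infinite_SL _, isCA_SL2 _, ?_, red (GaloisField 2 m), red_surj _, isOpen_ker_red _⟩
  intro h
  exact not_solvable_of_surj (red (GaloisField 2 m)) (red_surj _) (psl_not_comm _ hF)
    (h (red (GaloisField 2 m)).ker (isOpen_ker_red _))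

end Pool.Agent.Lib.MP_d2e4ca_al
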